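import Pool.Agent.U41.PH.Stm0

/-! Project PH, package SV1 (helper461): SV0 and SV1. -/

set_option autoImplicit false

namespace Pool.Agent.U41.PH

open MvPolynomial

namespace SV1Aux

theorem cnt_le4 {k H : ℕ} {P A B C D : (Fin k → ℤ) → Prop}
    (h : ∀ x, P x → A x ∨ B x ∨ C x ∨ D x) :
    cnt k H P ≤ cnt k H A + cnt k H B + cnt k H C + cnt k H D := by
  classical
  unfold cnt
  have h1 : (box k H).filter P ⊆
      (((box k H).filter A ∪ (box k H).filter B) ∪ (box k H).filter C) ∪ (box k H).filter D := by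
    intro x hx
    simp only [Finset.mem_filter, Finset.mem_union] at hx ⊢
    rcases h x hx.2 with h | h | h | h
    · exact Or.inl (Or.inl (Or.inl ⟨hx.1, h⟩))
    · exact Or.inl (Or.inl (Or.inr ⟨hx.1, h⟩))
    · exact Or.inl (Or.inr ⟨hx.1, h⟩)
    · exact Or.inr ⟨hx.1, h⟩
  have h2 := Finset.card_le_card h1
  have h3 := Finset.card_union_le
    (((box k H).filter A ∪ (box k H).filter B) ∪ (box k H).filter C) ((box k H).filter D)
  have h4 := Finset.card_union_le ((box k H).filter A ∪ (box k H).filter B) ((box k H).filter C)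
  have h5 := Finset.card_union_le ((box k H).filter A) ((box k H).filter B)
  have e : ∀ (Q : (Fin k → ℤ) → Prop) (i1 i2 : DecidablePred Q),
      (@Finset.filter _ Q i1 (box k H)).card = (@Finset.filter _ Q i2 (box k H)).card := by
    intro Q i1 i2
    congr
  rw [e P _ (fun a => Classical.propDecidable (P a))] at h2
  rw [e A _ (fun a => Classical.propDecidable (A a)),
    e B _ (fun a => Classical.propDecidable (B a))] at h5
  rw [e C _ (fun a => Classical.propDecidable (C a))] at h4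
  rw [e D _ (fun a => Classical.propDecidable (D a))] at h3
  omega

theorem cnt_tail {k H : ℕ} (Q : (Fin k → ℤ) → Prop) :
    cnt (k + 1) H (fun x => Q (fun i => x i.succ)) ≤ (2 * H + 1) * cnt k H Q := by
  classical
  have h1 : cnt (k + 1) H (fun x => Q (fun i => x i.succ)) ≤
      ((Finset.Icc (-(H : ℤ)) H) ×ˢ
        (@Finset.filter _ Q (fun a => Classical.propDecidable (Q a)) (box k H))).card := by
    unfold cnt
    apply Finset.card_le_card_of_injOn (fun x => (x 0, fun i : Fin k => x i.succ))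
    · intro x hx
      have hx' := Finset.mem_filter.1 (Finset.mem_coe.1 hx)
      have hb := Fintype.mem_piFinset.1 hx'.1
      rw [Finset.mem_coe, Finset.mem_product, Finset.mem_filter]
      refine ⟨hb 0, ?_, hx'.2⟩
      exact Fintype.mem_piFinset.2 fun i => hb i.succ
    · intro x _ y _ hxy
      have e1 : x 0 = y 0 := congrArg Prod.fst hxy
      have e2 : (fun i : Fin k => x i.succ) = fun i => y i.succ := congrArg Prod.snd hxy
      funext j
      refine Fin.cases e1 (fun i => ?_) j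
      exact congrFun e2 i
  rw [Finset.card_product, Int.card_Icc] at h1
  have h2 : ((H : ℤ) + 1 - -(H : ℤ)).toNat = 2 * H + 1 := by omega
  rw [h2] at h1
  exact h1

theorem fse_rename (k : ℕ) (h : MvPolynomial (Fin k) ℤ) :
    finSuccEquiv ℤ k (rename Fin.succ h) = Polynomial.C h := by
  induction h using MvPolynomial.induction_on with
  | C a =>
    rw [rename_C]
    simp
  | add p q hp hq => rw [map_add, map_add, hp, hq, map_add]
  | mul_X p i hp => rw [map_mul, map_mul, hp, rename_X, finSuccEquiv_X_succ, map_mul]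

theorem exists_coeff (k : ℕ) (h : MvPolynomial (Fin k) ℤ) (W : MvPolynomial (Fin (k + 1)) ℤ)
    (hW : ¬ rename Fin.succ h ∣ W) : ∃ i, ¬ h ∣ (finSuccEquiv ℤ k W).coeff i := by
  by_contra hcon
  push Not at hcon
  apply hW
  have h1 : Polynomial.C h ∣ finSuccEquiv ℤ k W := Polynomial.C_dvd_iff_dvd_coeff _ _ |>.2 hcon
  obtain ⟨q, hq⟩ := h1
  refine ⟨(finSuccEquiv ℤ k).symm q, ?_⟩
  apply (finSuccEquiv ℤ k).injective
  rw [map_mul, fse_rename, AlgEquiv.apply_symm_apply]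
  exact hq

theorem eval_tail {k : ℕ} (M : ℕ) (a x : Fin (k + 1) → ℤ) (f : MvPolynomial (Fin k) ℤ) :
    eval (pt M a x) (rename Fin.succ f) =
      eval (pt M (fun i => a i.succ) (fun i => x i.succ)) f := by
  rw [eval_rename]
  rfl

end SV1Aux

open SV1Aux

theorem SV0_ok : S_SV0 := by
  intro h g hirr hdvd ε hε
  obtain ⟨q, hq⟩ : ∃ q : ℤ, h = C q := ⟨_, eq_C_of_isEmpty h⟩
  have hq0 : q ≠ 0 := by
    rintro rfl
    rw [map_zero] at hq
    exact hirr.ne_zero hq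
  refine ⟨q.natAbs, ?_⟩
  intro Y hY M a hM
  refine ⟨0, fun H _ => ?_⟩
  have h0 : cnt 0 H (fun x => ∃ p : ℕ, p.Prime ∧ Y < p ∧
      ((p : ℤ) ∣ eval (pt M a x) h ∧ (p : ℤ) ∣ eval (pt M a x) g)) = 0 := by
    classical
    by_contra hne
    obtain ⟨x, hx⟩ := Finset.card_pos.1 (Nat.pos_of_ne_zero hne)
    obtain ⟨_, p, hp, hYp, h1, h2⟩ := Finset.mem_filter.1 hx
    rw [hq, eval_C] at h1
    have h3 : p ∣ q.natAbs := Int.natCast_dvd.1 h1
    have h4 := Nat.le_of_dvd (Int.natAbs_pos.2 hq0) h3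
    omega
  rw [h0]
  simp only [Nat.cast_zero]
  positivity

theorem SV1_ok (h3 : S_C3) (hM : S_SMd) (hL : S_SLg) : S_SV1 := by
  intro k hS h W hirr hW ε hε
  obtain ⟨i, hi⟩ := exists_coeff k h W hW
  obtain ⟨g, hg⟩ : ∃ g, g = (finSuccEquiv ℤ k W).coeff i := ⟨_, rfl⟩
  rw [← hg] at hi
  obtain ⟨Y1, hY1⟩ := hS h g hirr hi (ε / 4) (by positivity)
  obtain ⟨c, Y2, hc, hmid⟩ := hM k h g W i hg hirr
  obtain ⟨c', hc', hlarge⟩ := hL k h g W i hg
  refine ⟨max (max Y1 Y2) (⌈4 * c / ε⌉₊ + 1), ?_⟩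
  intro Y hY M a hSm
  have hYa : Y1 ≤ Y := le_trans (le_trans (le_max_left _ _) (le_max_left _ _)) hY
  have hYb : Y2 ≤ Y := le_trans (le_trans (le_max_right _ _) (le_max_left _ _)) hY
  have hYc : ⌈4 * c / ε⌉₊ + 1 ≤ Y := le_trans (le_max_right _ _) hY
  have hY0 : 0 < Y := by omega
  obtain ⟨H1, hH1⟩ := hY1 Y hYa M (fun i => a i.succ) hSm
  obtain ⟨H2, hH2⟩ := hlarge Y M a hSm
  obtain ⟨D, hD⟩ : ∃ D : ℕ, D = (rename Fin.succ h : MvPolynomial (Fin (k + 1)) ℤ).totalDegree :=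
    ⟨_, rfl⟩
  refine ⟨max (max H1 H2) (⌈4 * c' / ε⌉₊ + ⌈8 * D / ε⌉₊), ?_⟩
  intro H hH
  have hHa : H1 ≤ H := le_trans (le_trans (le_max_left _ _) (le_max_left _ _)) hH
  have hHb : H2 ≤ H := le_trans (le_trans (le_max_right _ _) (le_max_left _ _)) hH
  have hHc : ⌈4 * c' / ε⌉₊ + ⌈8 * D / ε⌉₊ ≤ H := le_trans (le_max_right _ _) hH
  have hsplit := cnt_le4 (k := k + 1) (H := H)
    (P := fun x => ∃ p : ℕ, p.Prime ∧ Y < p ∧
      ((p : ℤ) ∣ eval (pt M a x) (rename Fin.succ h) ∧ (p : ℤ) ∣ eval (pt M a x) W))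
    (A := fun x => (fun y => ∃ p : ℕ, p.Prime ∧ Y < p ∧
      ((p : ℤ) ∣ eval (pt M (fun i => a i.succ) y) h ∧
        (p : ℤ) ∣ eval (pt M (fun i => a i.succ) y) g)) (fun i => x i.succ))
    (B := fun x => eval (pt M a x) (rename Fin.succ h) = 0)
    (C := fun x => ∃ p : ℕ, p.Prime ∧ Y < p ∧ p ≤ 2 * H + 1 ∧
      (p : ℤ) ∣ eval (pt M a x) (rename Fin.succ h) ∧
      ¬ (p : ℤ) ∣ eval (pt M a x) (rename Fin.succ g) ∧ (p : ℤ) ∣ eval (pt M a x) W)
    (D := fun x => ∃ p : ℕ, p.Prime ∧ Y < p ∧ 2 * H + 1 < p ∧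
      eval (pt M a x) (rename Fin.succ h) ≠ 0 ∧
      (p : ℤ) ∣ eval (pt M a x) (rename Fin.succ h) ∧
      ¬ (p : ℤ) ∣ eval (pt M a x) (rename Fin.succ g) ∧ (p : ℤ) ∣ eval (pt M a x) W)
    (by
      rintro x ⟨p, hp, hYp, hx1, hx2⟩
      by_cases h0 : eval (pt M a x) (rename Fin.succ h) = 0
      · exact Or.inr (Or.inl h0)
      by_cases hg' : (p : ℤ) ∣ eval (pt M a x) (rename Fin.succ g)
      · left
        refine ⟨p, hp, hYp, ?_, ?_⟩
        · rw [← eval_tail]; exact hx1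
        · rw [← eval_tail]; exact hg'
      rcases le_or_gt p (2 * H + 1) with hpH | hpH
      · exact Or.inr (Or.inr (Or.inl ⟨p, hp, hYp, hpH, hx1, hg', hx2⟩))
      · exact Or.inr (Or.inr (Or.inr ⟨p, hp, hYp, hpH, h0, hx1, hg', hx2⟩)))
  have hA := cnt_tail (k := k) (H := H) (fun y => ∃ p : ℕ, p.Prime ∧ Y < p ∧
      ((p : ℤ) ∣ eval (pt M (fun i => a i.succ) y) h ∧
        (p : ℤ) ∣ eval (pt M (fun i => a i.succ) y) g))
  have hA' := hH1 H hHa
  have hB := h3 (k + 1) (rename Fin.succ h) M a H hSm.1 (by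
    intro h0
    apply hirr.ne_zero
    exact rename_injective _ (Fin.succ_injective k) (by rw [h0, map_zero]))
  have hC := hmid Y hYb hY0 M a hSm H
  have hD' := hH2 H hHb
  rw [← hD, Nat.add_sub_cancel] at hB
  obtain ⟨N, hN⟩ : ∃ N : ℝ, N = 2 * (H : ℝ) + 1 := ⟨_, rfl⟩
  rw [← hN] at hA' hB hC hD' ⊢
  have hN1 : 1 ≤ N := by rw [hN]; have : (0 : ℝ) ≤ H := Nat.cast_nonneg H; linarith
  have hNk : 0 < N ^ k := by positivity
  have hHr : ((⌈4 * c' / ε⌉₊ : ℕ) : ℝ) + ((⌈8 * D / ε⌉₊ : ℕ) : ℝ) ≤ H := by exact_mod_cast hHc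
  have e1 : 4 * c' / ε ≤ N := by
    have := Nat.le_ceil (4 * c' / ε)
    have h5 : (0 : ℝ) ≤ ((⌈8 * D / ε⌉₊ : ℕ) : ℝ) := Nat.cast_nonneg _
    have h6 : (0 : ℝ) ≤ H := Nat.cast_nonneg H
    rw [hN]; linarith
  have e2 : 8 * D / ε ≤ N := by
    have := Nat.le_ceil (8 * (D : ℝ) / ε)
    have h5 : (0 : ℝ) ≤ ((⌈4 * c' / ε⌉₊ : ℕ) : ℝ) := Nat.cast_nonneg _
    have h6 : (0 : ℝ) ≤ H := Nat.cast_nonneg H
    rw [hN]; linarith
  have e3 : c / Y ≤ ε / 4 := by
    have h5 : 4 * c / ε ≤ (Y : ℝ) := by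
      refine (Nat.le_ceil _).trans ?_
      have : ⌈4 * c / ε⌉₊ ≤ Y := by omega
      exact_mod_cast this
    have h6 : (0 : ℝ) < Y := by exact_mod_cast hY0
    rw [div_le_iff₀ hε] at h5
    rw [div_le_iff₀ h6]
    linarith
  rw [div_le_iff₀ hε] at e1 e2
  -- the four bounds
  have b1 : (cnt (k + 1) H (fun x => (fun y => ∃ p : ℕ, p.Prime ∧ Y < p ∧
      ((p : ℤ) ∣ eval (pt M (fun i => a i.succ) y) h ∧
        (p : ℤ) ∣ eval (pt M (fun i => a i.succ) y) g)) (fun i => x i.succ)) : ℝ) ≤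
      ε / 4 * N ^ (k + 1) := by
    have h5 : (cnt (k + 1) H (fun x => (fun y => ∃ p : ℕ, p.Prime ∧ Y < p ∧
      ((p : ℤ) ∣ eval (pt M (fun i => a i.succ) y) h ∧
        (p : ℤ) ∣ eval (pt M (fun i => a i.succ) y) g)) (fun i => x i.succ)) : ℝ) ≤
        N * (cnt k H (fun y => ∃ p : ℕ, p.Prime ∧ Y < p ∧
      ((p : ℤ) ∣ eval (pt M (fun i => a i.succ) y) h ∧
        (p : ℤ) ∣ eval (pt M (fun i => a i.succ) y) g)) : ℝ) := by
      rw [hN]
      exact_mod_cast hA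
    refine h5.trans ?_
    calc N * (cnt k H (fun y => ∃ p : ℕ, p.Prime ∧ Y < p ∧
      ((p : ℤ) ∣ eval (pt M (fun i => a i.succ) y) h ∧
        (p : ℤ) ∣ eval (pt M (fun i => a i.succ) y) g)) : ℝ) ≤ N * (ε / 4 * N ^ k) :=
          mul_le_mul_of_nonneg_left hA' (by linarith)
      _ = ε / 4 * N ^ (k + 1) := by ring
  have b2 : 2 * (D : ℝ) * N ^ k ≤ ε / 4 * N ^ (k + 1) := by
    have : 2 * (D : ℝ) ≤ ε / 4 * N := by linarith
    calc 2 * (D : ℝ) * N ^ k ≤ ε / 4 * N * N ^ k := mul_le_mul_of_nonneg_right this hNk.le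
      _ = ε / 4 * N ^ (k + 1) := by ring
  have b3 : c / Y * N ^ (k + 1) ≤ ε / 4 * N ^ (k + 1) :=
    mul_le_mul_of_nonneg_right e3 (by positivity)
  have b4 : c' * N ^ k ≤ ε / 4 * N ^ (k + 1) := by
    have : c' ≤ ε / 4 * N := by linarith
    calc c' * N ^ k ≤ ε / 4 * N * N ^ k := mul_le_mul_of_nonneg_right this hNk.le
      _ = ε / 4 * N ^ (k + 1) := by ring
  have hsplit' := (Nat.cast_le (α := ℝ)).2 hsplit
  push_cast at hsplit'
  refine hsplit'.trans ?_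
  linarith

end Pool.Agent.U41.PH
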